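import Pool.Agent.H469R3.LP.Tree

namespace Pool.Agent.H469R3.LP

open SimpleGraph

variable {n : ℕ} {T : SimpleGraph (Fin n)}

lemma dg_eq_card (T : SimpleGraph (Fin n)) [DecidableRel T.Adj] (v : Fin n) :
    dg T v = (Finset.univ.filter (fun w => T.Adj v w)).card := by
  unfold dg
  rw [← Set.ncard_coe_finset]
  congr 1
  ext w; simp

open Classical in
lemma count (hT : T.IsTree) (c : Fin n) (hc : 3 ≤ dg T c) (h2 : ∀ v, dg T v ≠ 2)
    {G : ℕ → ℕ} (hG : Monotone G)
    (hGU : ∀ U : Finset (Fin n), ∑ v ∈ U, (dg T v - 2) ≤ G U.card)
    (Z : Finset (Fin n)) (a : ℕ) (hZ : ∀ z ∈ Z, T.dist c z = a) (D : Finset ℕ)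
    (hD : ∀ z ∈ Z, ∀ z' ∈ Z, z ≠ z' → T.dist z z' ∈ D) :
    Z.card ≤ MM G D.card := by
  set Br : ℕ → Prop := fun k => ∃ z ∈ Z, ∃ z' ∈ Z, anc hT c z k = anc hT c z' k ∧
    anc hT c z (k+1) ≠ anc hT c z' (k+1) with hBr
  set B : ℕ → Finset ℕ := fun k => (Finset.range k).filter Br with hB
  set Vk : ℕ → Finset (Fin n) := fun k => Z.image (fun z => anc hT c z k) with hVk
  have hdepth : ∀ k ≤ a, ∀ v ∈ Vk k, T.dist c v = k := by
    intro k hk v hv
    obtain ⟨z, hz, rfl⟩ := Finset.mem_image.1 hv
    exact anc_depth hT c (by rw [hZ z hz]; exact hk)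
  -- the children estimate
  have hchild : ∀ k < a, ∀ v ∈ Vk k,
      (Finset.univ.filter (fun w => T.Adj v w ∧ T.dist c w = k + 1)).card ≤
        (dg T v - 2) + 1 + (if k = 0 then 1 else 0) := by
    intro k hk v hv
    obtain ⟨z, hz, hzv⟩ := Finset.mem_image.1 hv
    have hza : T.dist c z = a := hZ z hz
    have hadj1 : T.Adj v (anc hT c z (k+1)) := by
      rw [← hzv]; exact anc_adj hT c (by rw [hza]; exact hk)
    have hd1 : T.dist c (anc hT c z (k+1)) = k+1 := anc_depth hT c (by rw [hza]; exact hk)
    rw [dg_eq_card]
    by_cases hk0 : k = 0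
    · have hvc : v = c := by rw [← hzv, hk0]; exact anc_zero hT c z
      have h3 : 3 ≤ (Finset.univ.filter (fun w => T.Adj v w)).card := by
        rw [← dg_eq_card, hvc]; exact hc
      have h4 : (Finset.univ.filter (fun w => T.Adj v w ∧ T.dist c w = k + 1)).card ≤
          (Finset.univ.filter (fun w => T.Adj v w)).card :=
        Finset.card_le_card (fun w hw => by simp at hw ⊢; exact hw.1)
      rw [if_pos hk0]
      omega
    · obtain ⟨k', rfl⟩ := Nat.exists_eq_succ_of_ne_zero hk0
      have hadj0 : T.Adj (anc hT c z k') v := by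
        rw [← hzv]; exact anc_adj hT c (by rw [hza]; omega)
      have hd0 : T.dist c (anc hT c z k') = k' := anc_depth hT c (by rw [hza]; omega)
      set p := anc hT c z k' with hp
      have hnot : p ∉ Finset.univ.filter (fun w => T.Adj v w ∧ T.dist c w = k'.succ + 1) := by
        simp; intro _; omega
      have hsub : insert p (Finset.univ.filter (fun w => T.Adj v w ∧ T.dist c w = k'.succ + 1)) ⊆
          Finset.univ.filter (fun w => T.Adj v w) := by
        intro w hw
        rcases Finset.mem_insert.1 hw with rfl | hw
        · simp; exact hadj0.symm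
        · simp at hw ⊢; exact hw.1
      have h4 := Finset.card_le_card hsub
      rw [Finset.card_insert_of_notMem hnot] at h4
      have h5 : 1 ≤ (Finset.univ.filter (fun w => T.Adj v w ∧ T.dist c w = k'.succ + 1)).card := by
        apply Finset.card_pos.2
        exact ⟨_, by simp only [Finset.mem_filter, Finset.mem_univ, true_and]; exact ⟨hadj1, hd1⟩⟩
      have h6 : (Finset.univ.filter (fun w => T.Adj v w)).card ≠ 2 := by
        rw [← dg_eq_card]; exact h2 v
      rw [if_neg hk0]
      omega
  have main : ∀ k ≤ a, ∃ U : Finset (Fin n), (∀ u ∈ U, T.dist c u < k) ∧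
      U.card ≤ yy G (B k).card ∧ (Vk k).card ≤ MM G (B k).card ∧
      (((B k).card = 0 ∧ (Vk k).card ≤ 1) ∨ (Vk k).card ≤ 2 + ∑ u ∈ U, (dg T u - 2)) := by
    intro k
    induction k with
    | zero =>
      intro _
      have h1 : (Vk 0).card ≤ 1 := by
        have : Vk 0 ⊆ {c} := by
          intro v hv
          obtain ⟨z, hz, rfl⟩ := Finset.mem_image.1 hv
          simp
        simpa using Finset.card_le_card this
      refine ⟨∅, by simp, by simp, ?_, Or.inl ⟨by simp [hB], h1⟩⟩
      simpa [hB, MM] using h1
    | succ k ih =>
      intro hk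
      obtain ⟨U, hU1, hU2, hU3, hU4⟩ := ih (by omega)
      by_cases hbr : Br k
      · have hBk : (B (k+1)).card = (B k).card + 1 := by
          simp only [hB]
          rw [Finset.range_add_one, Finset.filter_insert, if_pos hbr,
            Finset.card_insert_of_notMem (by simp)]
        have hsub : Vk (k+1) ⊆ (Vk k).biUnion
            (fun v => Finset.univ.filter (fun w => T.Adj v w ∧ T.dist c w = k + 1)) := by
          intro w hw
          obtain ⟨z, hz, hzw⟩ := Finset.mem_image.1 hw
          rw [Finset.mem_biUnion]
          refine ⟨anc hT c z k, Finset.mem_image_of_mem _ hz, ?_⟩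
          have hza := hZ z hz
          simp only [Finset.mem_filter, Finset.mem_univ, true_and]
          rw [← hzw]
          exact ⟨anc_adj hT c (by omega), anc_depth hT c (by omega)⟩
        have hcard : (Vk (k+1)).card ≤ ∑ v ∈ Vk k, ((dg T v - 2) + 1 + (if k = 0 then 1 else 0)) :=
          (Finset.card_le_card hsub).trans (Finset.card_biUnion_le.trans
            (Finset.sum_le_sum (fun v hv => hchild k (by omega) v hv)))
        have hsum : ∑ v ∈ Vk k, ((dg T v - 2) + 1 + (if k = 0 then 1 else 0)) =
            ∑ v ∈ Vk k, (dg T v - 2) + (Vk k).card + (if k = 0 then (Vk k).card else 0) := by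
          rw [Finset.sum_add_distrib, Finset.sum_add_distrib]
          simp only [Finset.sum_const, smul_eq_mul, mul_one]
          split_ifs <;> simp
        rw [hsum] at hcard
        have hdisj : Disjoint U (Vk k) := by
          rw [Finset.disjoint_left]
          intro u hu hu'
          have h1 := hU1 u hu
          have h2 := hdepth k (by omega) u hu'
          omega
        have hbound : (Vk (k+1)).card ≤ 2 + ∑ u ∈ U ∪ Vk k, (dg T u - 2) := by
          rw [Finset.sum_union hdisj]
          by_cases hk0 : k = 0
          · have hB0 : (Vk k).card ≤ 1 := by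
              subst hk0
              have : Vk 0 ⊆ {c} := by
                intro v hv
                obtain ⟨z, hz, rfl⟩ := Finset.mem_image.1 hv
                simp
              simpa using Finset.card_le_card this
            rw [if_pos hk0] at hcard
            omega
          · rw [if_neg hk0] at hcard
            rcases hU4 with ⟨_, h⟩ | h <;> omega
        have hcardU : (U ∪ Vk k).card ≤ yy G (B (k+1)).card := by
          rw [hBk, yy_succ]
          have := Finset.card_union_le U (Vk k)
          omega
        refine ⟨U ∪ Vk k, ?_, hcardU, ?_, Or.inr hbound⟩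
        · intro u hu
          rcases Finset.mem_union.1 hu with hu | hu
          · have := hU1 u hu; omega
          · have := hdepth k (by omega) u hu; omega
        · have h1 := hGU (U ∪ Vk k)
          have h2 := hG hcardU
          rw [hBk] at h2 ⊢
          unfold MM
          rw [if_neg (by omega)]
          omega
      · have hBk : B (k+1) = B k := by
          simp only [hB]
          rw [Finset.range_add_one, Finset.filter_insert, if_neg hbr]
        have hle : (Vk (k+1)).card ≤ (Vk k).card := by
          have : ∃ f : Fin n → Fin n, ∀ z ∈ Z, anc hT c z (k+1) = f (anc hT c z k) := by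
            refine ⟨fun v => if h : ∃ z ∈ Z, anc hT c z k = v then
              anc hT c h.choose (k+1) else v, ?_⟩
            intro z hz
            have hex : ∃ z' ∈ Z, anc hT c z' k = anc hT c z k := ⟨z, hz, rfl⟩
            simp only [dif_pos hex]
            obtain ⟨h1, h2⟩ := hex.choose_spec
            by_contra hne
            exact hbr ⟨z, hz, _, h1, h2.symm, hne⟩
          obtain ⟨f, hf⟩ := this
          have heq : Vk (k+1) ⊆ (Vk k).image f := by
            intro w hw
            obtain ⟨z, hz, hzw⟩ := Finset.mem_image.1 hw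
            rw [Finset.mem_image]
            exact ⟨anc hT c z k, Finset.mem_image_of_mem _ hz, by rw [← hf z hz]; exact hzw⟩
          exact (Finset.card_le_card heq).trans Finset.card_image_le
        refine ⟨U, fun u hu => (hU1 u hu).trans (by omega), ?_, ?_, ?_⟩
        · rw [hBk]; exact hU2
        · rw [hBk]; exact hle.trans hU3
        · rw [hBk]
          rcases hU4 with ⟨h1, h2⟩ | h
          · exact Or.inl ⟨h1, hle.trans h2⟩
          · exact Or.inr (hle.trans h)
  obtain ⟨U, _, _, h3, _⟩ := main a le_rfl
  have hZV : Z.card ≤ (Vk a).card := by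
    apply Finset.card_le_card
    intro z hz
    refine Finset.mem_image.2 ⟨z, hz, ?_⟩
    have := anc_top hT c z
    rw [hZ z hz] at this
    exact this
  have hBD : (B a).card ≤ D.card := by
    apply Finset.card_le_card_of_injOn (fun k => 2 * (a - k))
    · intro k hk
      have hk' := Finset.mem_coe.1 hk
      simp only [hB, Finset.mem_filter, Finset.mem_range] at hk'
      obtain ⟨hka, z, hz, z', hz', h1, h2⟩ := hk'
      have hd := anc_dist hT c (by rw [hZ z hz]; exact hka) (by rw [hZ z' hz']; exact hka) h1 h2
      rw [hZ z hz, hZ z' hz'] at hd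
      have hne : z ≠ z' := fun h => h2 (by rw [h])
      have := hD z hz z' hz' hne
      rw [hd] at this
      rw [Finset.mem_coe]
      convert this using 1
      ring
    · intro k hk k' hk' h
      have h1 := Finset.mem_coe.1 hk
      have h2 := Finset.mem_coe.1 hk'
      simp only [hB, Finset.mem_filter, Finset.mem_range] at h1 h2
      simp only at h
      omega
  exact hZV.trans (h3.trans (MM_mono hG hBD))

end Pool.Agent.H469R3.LP
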