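import Pool.Agent.H469R3.LP.Count

namespace Pool.Agent.H469R3.LP

open SimpleGraph

variable {n : ℕ} {T : SimpleGraph (Fin n)}

open Classical in
lemma family (hT : T.IsTree) (c : Fin n) (hc : 3 ≤ dg T c) (h2 : ∀ v, dg T v ≠ 2)
    {G : ℕ → ℕ} (hG : Monotone G)
    (hGU : ∀ U : Finset (Fin n), ∑ v ∈ U, (dg T v - 2) ≤ G U.card)
    (F : Finset (Fin n)) (κ : ℕ) (D : Finset ℕ)
    (hdouble : ∀ j < D.card, 2 * MM G j ≤ MM G (j+1))
    (h1 : ∀ z ∈ F, T.dist c z + κ ∈ D)
    (h3 : ∀ z ∈ F, ∀ z' ∈ F, z ≠ z' → T.dist c z = T.dist c z' →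
      T.dist z z' ∈ D ∧ T.dist z z' < T.dist c z + κ) :
    F.card ≤ MM G D.card := by
  set A := F.image (fun z => T.dist c z) with hA
  have hsum : F.card = ∑ a ∈ A, (F.filter (fun z => T.dist c z = a)).card :=
    Finset.card_eq_sum_card_image _ F
  have key := sum_classes hdouble A (fun a => (F.filter (fun z => T.dist c z = a)).card) (by
    intro a ha
    obtain ⟨z0, hz0, hz0a⟩ := Finset.mem_image.1 ha
    have hE : (A.filter (fun a' => a ≤ a')).card ≤ (D.filter (fun x => a + κ ≤ x)).card := by
      apply Finset.card_le_card_of_injOn (fun a' => a' + κ)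
      · intro a' ha'
        have h5 := Finset.mem_coe.1 ha'
        rw [Finset.mem_filter] at h5
        obtain ⟨z, hz, hza⟩ := Finset.mem_image.1 h5.1
        rw [Finset.mem_coe, Finset.mem_filter]
        have hza' : T.dist c z = a' := hza
        have h6 := h5.2
        refine ⟨?_, by change a + κ ≤ a' + κ; omega⟩
        have := h1 z hz
        rw [hza'] at this; exact this
      · intro x _ y _ hxy
        simp only at hxy; omega
    have hsplit : (D.filter (fun x => x < a + κ)).card + (D.filter (fun x => a + κ ≤ x)).card = D.card := by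
      rw [← Finset.card_union_of_disjoint]
      · congr 1
        ext x
        simp only [Finset.mem_union, Finset.mem_filter]
        constructor
        · rintro (h | h) <;> exact h.1
        · intro h
          rcases lt_or_ge x (a + κ) with h' | h'
          · exact Or.inl ⟨h, h'⟩
          · exact Or.inr ⟨h, h'⟩
      · rw [Finset.disjoint_left]
        intro x hx hx'
        simp only [Finset.mem_filter] at hx hx'
        omega
    refine ⟨by omega, ?_⟩
    have hcnt := count hT c hc h2 hG hGU (F.filter (fun z => T.dist c z = a)) a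
      (fun z hz => (Finset.mem_filter.1 hz).2) (D.filter (fun x => x < a + κ)) (by
        intro z hz z' hz' hne
        rw [Finset.mem_filter] at hz hz'
        have := h3 z hz.1 z' hz'.1 hne (by rw [hz.2, hz'.2])
        rw [Finset.mem_filter]
        rw [hz.2] at this
        exact this)
    exact hcnt.trans (MM_mono hG (by omega)))
  rw [← hsum] at key
  omega

lemma leaf_of_max (hT : T.IsTree) {x y : Fin n} (hxy : x ≠ y)
    (hmax : ∀ w, T.dist w y ≤ T.dist x y) : dg T x ≤ 1 := by
  classical
  by_contra hcon
  push Not at hcon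
  obtain ⟨q, hq, _⟩ := hT.existsUnique_path x y
  have hqn : ¬ q.Nil := fun h => hxy h.eq
  rw [dg_eq_card] at hcon
  obtain ⟨w, hw, hwne⟩ := Finset.exists_mem_ne hcon q.snd
  simp only [Finset.mem_filter, Finset.mem_univ, true_and] at hw
  have hp : (Walk.cons hw Walk.nil : T.Walk x w).IsPath := by
    rw [Walk.cons_isPath_iff]
    simp [hw.ne]
  have := dist_of_snd_ne hT (Walk.cons hw Walk.nil) q hp hq (by simp) hqn (by simpa using hwne)
  rw [path_len hT q hq] at this
  have h2 := hmax w
  simp at this
  omega

/-- a leaf -/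
def IsLeaf (T : SimpleGraph (Fin n)) (v : Fin n) : Prop := dg T v ≤ 1

open Classical in
/-- leaves as a finset -/
noncomputable def leaves (T : SimpleGraph (Fin n)) : Finset (Fin n) :=
  Finset.univ.filter (fun v => dg T v ≤ 1)

lemma mem_leaves (v : Fin n) : v ∈ leaves T ↔ dg T v ≤ 1 := by simp [leaves]

/-- leaf distances -/
noncomputable def LD (T : SimpleGraph (Fin n)) : Finset ℕ :=
  ((leaves T) ×ˢ (leaves T)).image (fun p => T.dist p.1 p.2)

lemma mem_LD {u v : Fin n} (hu : u ∈ leaves T) (hv : v ∈ leaves T) : T.dist u v ∈ LD T :=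
  Finset.mem_image.2 ⟨(u, v), Finset.mem_product.2 ⟨hu, hv⟩, rfl⟩

open Classical in
lemma leaves_bound (hT : T.IsTree) (h2 : ∀ v, dg T v ≠ 2)
    {G : ℕ → ℕ} (hG : Monotone G)
    (hGU : ∀ U : Finset (Fin n), ∑ v ∈ U, (dg T v - 2) ≤ G U.card)
    (hdouble : ∀ j < ((LD T).erase 0).card, 2 * MM G j ≤ MM G (j+1))
    {x y : Fin n} (hmax : ∀ u v, T.dist u v ≤ T.dist x y) (hxy : 2 ≤ T.dist x y) :
    (leaves T).card ≤ 2 * MM G ((LD T).erase 0).card := by
  have hne : x ≠ y := by rintro rfl; simp at hxy
  have hxl : x ∈ leaves T := (mem_leaves x).2 (leaf_of_max hT hne (fun w => hmax w y))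
  have hyl : y ∈ leaves T := (mem_leaves y).2 (leaf_of_max hT hne.symm (fun w => by
    rw [SimpleGraph.dist_comm (u := y)]; exact hmax w x))
  set Dm := T.dist x y with hDm
  set ρ := Dm / 2 with hρ
  set ρ' := Dm - ρ with hρ'
  set c := anc hT x y ρ with hcdef
  have hxc : T.dist x c = ρ := anc_depth hT x (by omega)
  have hcx : T.dist c x = ρ := by rw [SimpleGraph.dist_comm]; exact hxc
  have hcy : T.dist c y = ρ' := by
    apply le_antisymm
    · have h1 := SimpleGraph.dist_le ((P hT x y).drop ρ)
      rw [Walk.drop_length, P_len] at h1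
      exact h1
    · have := hT.connected.dist_triangle (u := x) (v := c) (w := y)
      omega
  have hsplit : anc hT c x 1 ≠ anc hT c y 1 := by
    intro heq
    have h1 : T.dist (anc hT c x 1) x ≤ ρ - 1 := by
      have h1 := SimpleGraph.dist_le ((P hT c x).drop 1)
      rw [Walk.drop_length, P_len, hcx] at h1
      exact h1
    have h2 : T.dist (anc hT c y 1) y ≤ ρ' - 1 := by
      have h1 := SimpleGraph.dist_le ((P hT c y).drop 1)
      rw [Walk.drop_length, P_len, hcy] at h1
      exact h1
    rw [heq] at h1
    have h3 := hT.connected.dist_triangle (u := x) (v := anc hT c y 1) (w := y)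
    rw [SimpleGraph.dist_comm (u := x) (v := anc hT c y 1)] at h3
    omega
  have hc3 : 3 ≤ dg T c := by
    have h1 : T.Adj c (anc hT c x 1) := by
      have := anc_adj hT c (z := x) (k := 0) (by omega)
      rwa [anc_zero] at this
    have h1' : T.Adj c (anc hT c y 1) := by
      have := anc_adj hT c (z := y) (k := 0) (by omega)
      rwa [anc_zero] at this
    have h3 : 1 < dg T c := by
      rw [dg_eq_card, Finset.one_lt_card]
      exact ⟨_, by simpa using h1, _, by simpa using h1', hsplit⟩
    have := h2 c
    omega
  have hleafc : ∀ z ∈ leaves T, 1 ≤ T.dist c z := by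
    intro z hz
    have : z ≠ c := by
      intro h
      have := (mem_leaves z).1 hz
      rw [h] at this
      omega
    have := hT.connected.pos_dist_of_ne this.symm
    omega
  set D := (LD T).erase 0 with hD
  have hDmem : ∀ u ∈ leaves T, ∀ v ∈ leaves T, u ≠ v → T.dist u v ∈ D := by
    intro u hu v hv huv
    rw [hD, Finset.mem_erase]
    refine ⟨?_, mem_LD hu hv⟩
    have := hT.connected.pos_dist_of_ne huv
    omega
  have hy_case : ∀ z ∈ leaves T, anc hT c z 1 ≠ anc hT c y 1 →
      T.dist z y = T.dist c z + ρ' := by
    intro z hz h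
    have := anc_dist hT c (z := z) (z' := y) (k := 0) (by have := hleafc z hz; omega) (by omega)
      (by rw [anc_zero, anc_zero]) h
    rw [this, hcy]; omega
  have hx_case : ∀ z ∈ leaves T, anc hT c z 1 = anc hT c y 1 →
      T.dist z x = T.dist c z + ρ := by
    intro z hz h
    have := anc_dist hT c (z := z) (z' := x) (k := 0) (by have := hleafc z hz; omega) (by omega)
      (by rw [anc_zero, anc_zero]) (by
        change anc hT c z 1 ≠ anc hT c x 1
        rw [h]; exact hsplit.symm)
    rw [this, hcx]; omega
  have hclass : ∀ z z', z ≠ z' → T.dist c z = T.dist c z' → T.dist z z' ≤ 2 * T.dist c z := by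
    intro z z' hne hh
    obtain ⟨k, hk, h1, h2⟩ := exists_split hT c hh hne
    rw [anc_dist hT c hk (by rw [← hh]; exact hk) h1 h2]
    omega
  have hclass' : ∀ z z', z ≠ z' → T.dist c z = T.dist c z' → anc hT c z 1 = anc hT c z' 1 →
      T.dist z z' + 2 ≤ 2 * T.dist c z := by
    intro z z' hne hh h0
    obtain ⟨k, hk, h1, h2⟩ := exists_split hT c hh hne
    have hk0 : k ≠ 0 := by
      rintro rfl
      exact h2 h0
    rw [anc_dist hT c hk (by rw [← hh]; exact hk) h1 h2]
    omega
  by_cases hpar : ρ = ρ'
  · -- even case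
    have hcard : (leaves T).card = ((leaves T).filter (fun z => T.dist c z = ρ)).card +
        ((leaves T).filter (fun z => ¬ T.dist c z = ρ)).card :=
      (Finset.card_filter_add_card_filter_not _).symm
    have hle : ∀ z ∈ leaves T, T.dist c z ≤ ρ := by
      intro z hz
      by_cases h : anc hT c z 1 = anc hT c y 1
      · have h1 := hx_case z hz h
        have h2 := hmax z x
        omega
      · have h1 := hy_case z hz h
        have h2 := hmax z y
        omega
    have b1 : ((leaves T).filter (fun z => T.dist c z = ρ)).card ≤ MM G D.card :=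
      count hT c hc3 h2 hG hGU _ ρ (fun z hz => (Finset.mem_filter.1 hz).2) D (by
        intro z hz z' hz' hne
        exact hDmem z (Finset.mem_filter.1 hz).1 z' (Finset.mem_filter.1 hz').1 hne)
    have b2 : ((leaves T).filter (fun z => ¬ T.dist c z = ρ)).card ≤ MM G D.card := by
      apply family hT c hc3 h2 hG hGU _ ρ D hdouble
      · intro z hz
        rw [Finset.mem_filter] at hz
        by_cases h : anc hT c z 1 = anc hT c y 1
        · rw [← hx_case z hz.1 h]
          apply hDmem z hz.1 x hxl
          rintro rfl
          exact hz.2 hcx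
        · have := hy_case z hz.1 h
          rw [← hpar] at this
          rw [← this]
          apply hDmem z hz.1 y hyl
          rintro rfl
          exact h rfl
      · intro z hz z' hz' hne hh
        rw [Finset.mem_filter] at hz hz'
        refine ⟨hDmem z hz.1 z' hz'.1 hne, ?_⟩
        have h5 := hclass z z' hne hh
        have h6 := hle z hz.1
        have h7 := hz.2
        omega
    omega
  · -- odd case
    have hcard : (leaves T).card = ((leaves T).filter (fun z => anc hT c z 1 = anc hT c y 1)).card +
        ((leaves T).filter (fun z => ¬ anc hT c z 1 = anc hT c y 1)).card :=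
      (Finset.card_filter_add_card_filter_not _).symm
    have b1 : ((leaves T).filter (fun z => anc hT c z 1 = anc hT c y 1)).card ≤ MM G D.card := by
      apply family hT c hc3 h2 hG hGU _ ρ D hdouble
      · intro z hz
        rw [Finset.mem_filter] at hz
        rw [← hx_case z hz.1 hz.2]
        apply hDmem z hz.1 x hxl
        rintro rfl
        exact hsplit hz.2
      · intro z hz z' hz' hne hh
        rw [Finset.mem_filter] at hz hz'
        refine ⟨hDmem z hz.1 z' hz'.1 hne, ?_⟩
        have h5 := hclass' z z' hne hh (hz.2.trans hz'.2.symm)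
        have h6 := hx_case z hz.1 hz.2
        have h7 := hmax z x
        omega
    have b2 : ((leaves T).filter (fun z => ¬ anc hT c z 1 = anc hT c y 1)).card ≤ MM G D.card := by
      apply family hT c hc3 h2 hG hGU _ ρ' D hdouble
      · intro z hz
        rw [Finset.mem_filter] at hz
        rw [← hy_case z hz.1 hz.2]
        apply hDmem z hz.1 y hyl
        rintro rfl
        exact hz.2 rfl
      · intro z hz z' hz' hne hh
        rw [Finset.mem_filter] at hz hz'
        refine ⟨hDmem z hz.1 z' hz'.1 hne, ?_⟩
        have h5 := hclass z z' hne hh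
        have h6 := hy_case z hz.1 hz.2
        have h7 := hmax z y
        omega
    omega

end Pool.Agent.H469R3.LP
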