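import Mathlib

/-! Greedy tree with a prescribed (sorted) degree sequence. -/

namespace Pool.Agent.H469R3.LP

open SimpleGraph

/-- degree as a natural number, without instances -/
noncomputable def dg {n : ℕ} (G : SimpleGraph (Fin n)) (v : Fin n) : ℕ := (G.neighborSet v).ncard

section greedy

variable (d : ℕ → ℕ)

/-- number of children of vertex `r` in the greedy tree -/
def ch (r : ℕ) : ℕ := if r = 0 then d 0 else d r - 1

/-- first child index -/
def c (q : ℕ) : ℕ := 1 + ∑ r ∈ Finset.range q, ch d r

lemma c_zero : c d 0 = 1 := by simp [c]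

lemma c_succ (q : ℕ) : c d (q+1) = c d q + ch d q := by
  simp [c, Finset.sum_range_succ]; ring

lemma c_mono : Monotone (c d) := by
  apply monotone_nat_of_le_succ
  intro q; rw [c_succ]; omega

variable {n : ℕ}

structure Good (n : ℕ) (d : ℕ → ℕ) : Prop where
  two : 2 ≤ n
  anti : Antitone d
  pos : ∀ r < n, 1 ≤ d r
  sum : ∑ r ∈ Finset.range n, d r = 2 * (n - 1)

variable {d}

lemma sum_ch (h : Good n d) : ∀ q, 1 ≤ q → q ≤ n →
    (∑ r ∈ Finset.range q, ch d r) + (q - 1) = ∑ r ∈ Finset.range q, d r := by
  intro q hq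
  induction q, hq using Nat.le_induction with
  | base => intro _; simp [ch]
  | succ q hq ih =>
    intro hqn
    have := ih (by omega)
    rw [Finset.sum_range_succ, Finset.sum_range_succ, ← this]
    have h1 : ch d q = d q - 1 := by simp [ch]; omega
    have := h.pos q (by omega)
    omega

lemma c_n (h : Good n d) : c d n = n := by
  have h1 := sum_ch h n (by have := h.two; omega) le_rfl
  have h2 := h.sum
  have := h.two
  unfold c
  omega

lemma ch_eq (r : ℕ) (hr : 1 ≤ r) : ch d r = d r - 1 := by simp [ch]; omega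

lemma c_gt (h : Good n d) (q : ℕ) (hq : q < n) : q + 1 ≤ c d q := by
  rcases Nat.eq_zero_or_pos q with rfl | hq0
  · simp [c_zero]
  by_cases hd : 2 ≤ d q
  · -- all earlier have at least one child
    have : ∀ k, k ≤ q → k + 1 ≤ c d k := by
      intro k
      induction k with
      | zero => intro _; simp [c_zero]
      | succ k ih =>
        intro hk
        rw [c_succ]
        have := ih (by omega)
        have h2 : 2 ≤ d k := le_trans hd (h.anti (by omega))
        have : 1 ≤ ch d k := by unfold ch; split_ifs with h0 <;> [(subst h0; omega); omega]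
        omega
    exact this q le_rfl
  · have hconst : ∀ k, q ≤ k → k ≤ n → c d k = c d q := by
      intro k hk
      induction k, hk using Nat.le_induction with
      | base => intro _; rfl
      | succ k hk ih =>
        intro hkn
        rw [c_succ, ih (by omega), ch_eq _ (by omega)]
        have : d k ≤ d q := h.anti hk
        omega
    have := hconst n hq.le le_rfl
    rw [c_n h] at this
    omega

lemma exists_par (h : Good n d) (i : ℕ) (hi : i < n) : ∃ q, i < c d (q+1) := by
  refine ⟨n-1, ?_⟩
  have := h.two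
  rw [show n - 1 + 1 = n by omega, c_n h]; exact hi

/-- parent -/
noncomputable def par (d : ℕ → ℕ) (i : ℕ) : ℕ := sInf {q | i < c d (q+1)}

lemma par_spec (h : Good n d) {i : ℕ} (hi : i < n) : i < c d (par d i + 1) :=
  Nat.sInf_mem (s := {q | i < c d (q+1)}) (exists_par h i hi)

lemma par_le {i q : ℕ} (hi : i < c d (q+1)) : par d i ≤ q :=
  Nat.sInf_le (s := {q | i < c d (q+1)}) hi

lemma c_par_le {i : ℕ} (hi1 : 1 ≤ i) : c d (par d i) ≤ i := by
  by_contra hcon
  push Not at hcon
  rcases Nat.eq_zero_or_pos (par d i) with h0 | h0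
  · rw [h0, c_zero] at hcon; omega
  · have : par d i ≤ par d i - 1 := par_le (by rw [show par d i - 1 + 1 = par d i by omega]; exact hcon)
    omega

lemma par_eq_iff (h : Good n d) {i q : ℕ} (hi1 : 1 ≤ i) (hi : i < n) :
    par d i = q ↔ c d q ≤ i ∧ i < c d (q+1) := by
  constructor
  · rintro rfl; exact ⟨c_par_le hi1, par_spec h hi⟩
  · rintro ⟨h1, h2⟩
    apply le_antisymm (par_le h2)
    by_contra hcon
    push Not at hcon
    have h3 := par_spec h hi
    have h4 := c_mono d (show par d i + 1 ≤ q by omega)
    omega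

lemma par_lt (h : Good n d) {i : ℕ} (hi1 : 1 ≤ i) (hi : i < n) : par d i < i := by
  have h1 := c_par_le (d := d) hi1
  have hlt : par d i < n := by
    have : par d i ≤ n - 1 := par_le (by
      have := h.two
      rw [show n - 1 + 1 = n by omega, c_n h]; exact hi)
    have := h.two
    omega
  have := c_gt h _ hlt
  omega

/-- the greedy tree -/
noncomputable def GTree (h : Good n d) : SimpleGraph (Fin n) where
  Adj i j := (1 ≤ i.val ∧ par d i.val = j.val) ∨ (1 ≤ j.val ∧ par d j.val = i.val)
  symm := ⟨fun i j hij => by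
    rcases hij with hh | hh
    · exact Or.inr hh
    · exact Or.inl hh⟩
  loopless := ⟨fun i hi => by
    rcases hi with ⟨h1, h2⟩ | ⟨h1, h2⟩ <;>
    · have := par_lt h h1 i.isLt
      omega⟩

lemma dg_GTree (h : Good n d) (v : Fin n) : dg (GTree h) v = d v.val := by
  unfold dg
  have himg : ((GTree h).neighborSet v).ncard = (Fin.val '' ((GTree h).neighborSet v)).ncard :=
    (Set.ncard_image_of_injective _ Fin.val_injective).symm
  rw [himg]
  have hv := v.isLt
  have hcv : c d (v.val + 1) ≤ n := by
    have := c_mono d (show v.val + 1 ≤ n by omega)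
    rw [c_n h] at this; exact this
  have hset : Fin.val '' ((GTree h).neighborSet v) =
      ((Finset.Ico (c d v.val) (c d (v.val+1)) ∪ (if v.val = 0 then ∅ else {par d v.val}) : Finset ℕ) : Set ℕ) := by
    ext i
    simp only [Set.mem_image, SimpleGraph.mem_neighborSet, GTree, Finset.coe_union, Finset.coe_Ico,
      Set.mem_union, Set.mem_Ico, Finset.mem_coe]
    constructor
    · rintro ⟨w, hw, rfl⟩
      rcases hw with ⟨h1, h2⟩ | ⟨h1, h2⟩
      · right
        rw [if_neg (by omega)]; simp [h2]
      · left
        exact (par_eq_iff h h1 w.isLt).1 h2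
    · rintro (hi | hi)
      · have hin : i < n := lt_of_lt_of_le hi.2 hcv
        have hi1 : 1 ≤ i := by
          have : 1 ≤ c d v.val := by unfold c; omega
          omega
        exact ⟨⟨i, hin⟩, Or.inr ⟨hi1, (par_eq_iff h hi1 hin).2 hi⟩, rfl⟩
      · split_ifs at hi with h0
        · simp at hi
        · simp at hi
          subst hi
          have := par_lt h (show 1 ≤ v.val by omega) hv
          exact ⟨⟨par d v.val, by omega⟩, Or.inl ⟨by omega, rfl⟩, rfl⟩
  rw [hset, Set.ncard_coe_finset]
  split_ifs with h0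
  · simp [c_succ, h0, ch]
  · rw [Finset.card_union_of_disjoint]
    · rw [Nat.card_Ico, Finset.card_singleton, c_succ, ch_eq _ (by omega)]
      have := h.pos v.val hv
      omega
    · rw [Finset.disjoint_singleton_right, Finset.mem_Ico]
      have h1 := par_lt h (show 1 ≤ v.val by omega) hv
      have h2 := c_gt h v.val hv
      omega

lemma reach (h : Good n d) (hn : 0 < n) : ∀ i (hi : i < n), (GTree h).Reachable ⟨0, hn⟩ ⟨i, hi⟩ := by
  intro i
  induction i using Nat.strong_induction_on with
  | _ i ih =>
    intro hi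
    rcases Nat.eq_zero_or_pos i with rfl | h0
    · rfl
    · have hp := par_lt h h0 hi
      have h1 := ih (par d i) hp (by omega)
      refine h1.trans (SimpleGraph.Adj.reachable ?_)
      exact Or.inr ⟨h0, rfl⟩

lemma conn (h : Good n d) : (GTree h).Connected := by
  have hn : 0 < n := by have := h.two; omega
  haveI : Nonempty (Fin n) := ⟨⟨0, hn⟩⟩
  rw [SimpleGraph.connected_iff]
  refine ⟨fun u v => ?_, inferInstance⟩
  exact (reach h hn u.val u.isLt).symm.trans (reach h hn v.val v.isLt)

lemma isTree_GTree (h : Good n d) : (GTree h).IsTree := by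
  classical
  rw [SimpleGraph.isTree_iff_connected_and_card]
  refine ⟨conn h, ?_⟩
  have h1 := (GTree h).sum_degrees_eq_twice_card_edges
  have h2 : ∀ v, (GTree h).degree v = d v.val := by
    intro v
    rw [← dg_GTree h v]
    unfold dg
    rw [← SimpleGraph.card_neighborSet_eq_degree, Set.ncard_eq_toFinset_card', Set.toFinset_card]
  have h3 : ∑ v : Fin n, (GTree h).degree v = 2 * (n - 1) := by
    rw [← h.sum, Finset.sum_range]
    exact Finset.sum_congr rfl (fun v _ => h2 v)
  rw [h3] at h1
  have h4 : Nat.card (GTree h).edgeSet = (GTree h).edgeFinset.card := by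
    rw [Nat.card_eq_fintype_card, SimpleGraph.edgeFinset_card]
  rw [h4, Nat.card_eq_fintype_card, Fintype.card_fin]
  have := h.two
  omega

/-- levels -/
def lev (d : ℕ → ℕ) : ℕ → ℕ
  | 0 => 1
  | j+1 => c d (lev d j)

lemma lev_pos (j : ℕ) : 1 ≤ lev d j := by
  cases j with
  | zero => simp [lev]
  | succ j => simp [lev, c]

lemma dist_lev (h : Good n d) (hn : 0 < n) : ∀ j i (hi : i < n), i < lev d j →
    ∃ w : (GTree h).Walk ⟨0, hn⟩ ⟨i, hi⟩, w.length ≤ j := by
  intro j
  induction j with
  | zero =>
    intro i hi hij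
    have : i = 0 := by simp [lev] at hij; exact hij
    subst this
    exact ⟨SimpleGraph.Walk.nil, by simp⟩
  | succ j ih =>
    intro i hi hij
    rcases Nat.eq_zero_or_pos i with rfl | h0
    · exact ⟨SimpleGraph.Walk.nil, by simp⟩
    · have hp := par_lt h h0 hi
      have hl := lev_pos (d := d) j
      have hpl : par d i ≤ lev d j - 1 := par_le (by
        rw [show lev d j - 1 + 1 = lev d j by omega]; exact hij)
      obtain ⟨w, hw⟩ := ih (par d i) (by omega) (by omega)
      have hadj : (GTree h).Adj ⟨par d i, by omega⟩ ⟨i, hi⟩ := Or.inr ⟨h0, rfl⟩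
      refine ⟨w.concat hadj, ?_⟩
      rw [SimpleGraph.Walk.length_concat]; omega

lemma dist_le_of_lev (h : Good n d) (hn : 0 < n) (j : ℕ) (hj : n ≤ lev d j) (v : Fin n) :
    (GTree h).dist ⟨0, hn⟩ v ≤ j := by
  obtain ⟨w, hw⟩ := dist_lev h hn j v.val v.isLt (lt_of_lt_of_le v.isLt hj)
  exact (SimpleGraph.dist_le w).trans hw

end greedy

end Pool.Agent.H469R3.LP
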