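import Pool.Agent.H469R3.LP.GT

namespace Pool.Agent.H469R3.LP

open SimpleGraph

/-- partial sums of `d r - 2` -/
def GG (d : ℕ → ℕ) (k : ℕ) : ℕ := ∑ r ∈ Finset.range k, (d r - 2)

lemma GG_mono (d : ℕ → ℕ) : Monotone (GG d) := by
  apply monotone_nat_of_le_succ
  intro q; unfold GG; rw [Finset.sum_range_succ]; omega

/-- size of the ball of radius `j-1` in the (unbounded) greedy tree -/
def yy (G : ℕ → ℕ) : ℕ → ℕ
  | 0 => 0
  | 1 => 1
  | j+2 => yy G (j+1) + 2 + G (yy G (j+1))

/-- level sizes -/
def MM (G : ℕ → ℕ) (j : ℕ) : ℕ := if j = 0 then 1 else 2 + G (yy G j)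

lemma yy_succ (G : ℕ → ℕ) (j : ℕ) : yy G (j+1) = yy G j + MM G j := by
  cases j with
  | zero => simp [yy, MM]
  | succ j => simp [yy, MM]; ring

lemma yy_mono (G : ℕ → ℕ) : Monotone (yy G) := by
  apply monotone_nat_of_le_succ
  intro q; rw [yy_succ]; omega

lemma MM_mono {G : ℕ → ℕ} (hG : Monotone G) : Monotone (MM G) := by
  apply monotone_nat_of_le_succ
  intro q
  have h1 : MM G (q+1) = 2 + G (yy G (q+1)) := by simp [MM]
  rcases Nat.eq_zero_or_pos q with rfl | h0
  · rw [h1]; simp [MM]; omega
  · have h2 : MM G q = 2 + G (yy G q) := by simp [MM]; omega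
    have := hG (yy_mono G (show q ≤ q+1 by omega)); omega

lemma MM_double {G : ℕ → ℕ} {m : ℕ} (hstep : ∀ k, k < m → G k + 1 ≤ G (k+1)) (j : ℕ)
    (hj : yy G (j+1) ≤ m) : 2 * MM G j ≤ MM G (j+1) := by
  have hadd : ∀ k l, k + l ≤ m → G k + l ≤ G (k + l) := by
    intro k l
    induction l with
    | zero => intro _; simp
    | succ l ih =>
      intro hl
      have h1 := ih (by omega)
      have h2 := hstep (k+l) (by omega)
      rw [← Nat.add_assoc k l 1]
      omega
  rcases Nat.eq_zero_or_pos j with rfl | h0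
  · have := hadd 0 1 (by simpa [yy] using hj)
    simp [MM, yy] at *
  · have h1 : MM G (j+1) = 2 + G (yy G (j+1)) := by simp [MM]
    have h2 : MM G j = 2 + G (yy G j) := by simp [MM]; omega
    have h3 := hadd (yy G j) (MM G j) (by rw [← yy_succ]; exact hj)
    rw [← yy_succ] at h3
    omega

variable {d : ℕ → ℕ} {n : ℕ}

lemma c_formula (h : Good n d) {m : ℕ} (hm : ∀ r < m, 2 ≤ d r) {q : ℕ} (hq1 : 1 ≤ q) (hqm : q ≤ m)
    (hqn : q ≤ n) : c d q = q + 2 + GG d q := by
  have h1 := sum_ch h q hq1 hqn
  have h2 : GG d q + 2 * q = ∑ r ∈ Finset.range q, d r := by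
    unfold GG
    have : ∀ k, k ≤ q → (∑ r ∈ Finset.range k, (d r - 2)) + 2 * k = ∑ r ∈ Finset.range k, d r := by
      intro k
      induction k with
      | zero => intro _; simp
      | succ k ih =>
        intro hk
        rw [Finset.sum_range_succ, Finset.sum_range_succ, ← ih (by omega)]
        have := hm k (by omega)
        omega
    exact this q le_rfl
  unfold c
  omega

lemma c_top (h : Good n d) {m : ℕ} (hm1 : 1 ≤ m) (hmn : m ≤ n) (hm2 : ∀ r, m ≤ r → d r ≤ 1) {q : ℕ}
    (hq : m ≤ q) : c d q = n := by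
  have hconst : ∀ k, m ≤ k → c d k = c d m := by
    intro k hk
    induction k, hk using Nat.le_induction with
    | base => rfl
    | succ k hk ih =>
      rw [c_succ, ih, ch_eq _ (by omega)]
      have := hm2 k hk
      omega
  rw [hconst q hq, ← hconst n hmn, c_n h]

lemma lev_of_yy (h : Good n d) {m : ℕ} (hm1 : 1 ≤ m) (hmn : m ≤ n) (hm : ∀ r < m, 2 ≤ d r)
    (hm2 : ∀ r, m ≤ r → d r ≤ 1) (J : ℕ) (hJ : m ≤ yy (GG d) (J+1)) : n ≤ lev d (J+1) := by
  have hP : ∀ j, lev d j = yy (GG d) (j+1) ∨ n ≤ lev d j := by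
    intro j
    induction j with
    | zero => left; simp [lev, yy]
    | succ j ih =>
      rcases ih with ih | ih
      · by_cases hy : yy (GG d) (j+1) ≤ m
        · left
          have h1 : 1 ≤ yy (GG d) (j+1) := by rw [← ih]; exact lev_pos j
          change c d (lev d j) = _
          rw [ih, c_formula h hm h1 hy (by omega)]
          rfl
        · right
          change n ≤ c d (lev d j)
          rw [ih, c_top h hm1 hmn hm2 (by omega)]
      · right
        change n ≤ c d (lev d j)
        rw [c_top h hm1 hmn hm2 (by omega)]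
  change n ≤ c d (lev d J)
  rcases hP J with h1 | h1
  · rw [h1, c_top h hm1 hmn hm2 hJ]
  · rw [c_top h hm1 hmn hm2 (by omega)]

/-- sums of an antitone function over a finset of naturals -/
lemma sum_le_range (g : ℕ → ℕ) (hg : Antitone g) (S : Finset ℕ) :
    ∑ r ∈ S, g r ≤ ∑ r ∈ Finset.range S.card, g r := by
  induction S using Finset.induction_on_max with
  | empty => simp
  | insert a s hs ih =>
    have ha : a ∉ s := fun h => lt_irrefl _ (hs a h)
    rw [Finset.sum_insert ha, Finset.card_insert_of_notMem ha, Finset.sum_range_succ]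
    have : s.card ≤ a := by
      have : s ⊆ Finset.range a := fun x hx => Finset.mem_range.2 (hs x hx)
      simpa using Finset.card_le_card this
    have := hg this
    omega

/-- main summation lemma -/
lemma sum_classes {M : ℕ → ℕ} {K : ℕ} (hdouble : ∀ j < K, 2 * M j ≤ M (j+1)) (A : Finset ℕ)
    (f : ℕ → ℕ)
    (hA : ∀ a ∈ A, (A.filter (fun a' => a ≤ a')).card ≤ K ∧
      f a ≤ M (K - (A.filter (fun a' => a ≤ a')).card)) :
    A.card ≤ K ∧ ∑ a ∈ A, f a + M (K - A.card) ≤ M K := by
  induction A using Finset.induction_on_min with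
  | empty => simp
  | insert a s hs ih =>
    have ha : a ∉ s := fun h => lt_irrefl _ (hs a h)
    have hfa : (insert a s).filter (fun a' => a ≤ a') = insert a s := by
      rw [Finset.filter_eq_self]
      intro x hx
      rcases Finset.mem_insert.1 hx with rfl | hx
      · exact le_rfl
      · exact (hs x hx).le
    have hfx : ∀ x ∈ s, (insert a s).filter (fun a' => x ≤ a') = s.filter (fun a' => x ≤ a') := by
      intro x hx
      rw [Finset.filter_insert, if_neg (by have := hs x hx; omega)]
    have h1 := hA a (Finset.mem_insert_self _ _)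
    rw [hfa, Finset.card_insert_of_notMem ha] at h1
    obtain ⟨h2, h3⟩ := ih (fun x hx => by
      have := hA x (Finset.mem_insert_of_mem hx)
      rw [hfx x hx] at this
      exact this)
    rw [Finset.card_insert_of_notMem ha, Finset.sum_insert ha]
    refine ⟨h1.1, ?_⟩
    have h4 := hdouble (K - (s.card + 1)) (by omega)
    rw [show K - (s.card + 1) + 1 = K - s.card by omega] at h4
    omega

end Pool.Agent.H469R3.LP
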