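import Pool.Agent.H469R3.LP.Seq

namespace Pool.Agent.H469R3.LP

open SimpleGraph

variable {V : Type*} {G : SimpleGraph V}

lemma path_len (hG : G.IsTree) {u v : V} (p : G.Walk u v) (hp : p.IsPath) :
    p.length = G.dist u v := by
  obtain ⟨q, hq⟩ := hG.connected.exists_walk_length_eq_dist u v
  have hqp := Walk.isPath_of_length_eq_dist q hq
  have := (hG.existsUnique_path u v).unique hp hqp
  rw [this, hq]

lemma dist_of_snd_ne (hG : G.IsTree) {v z z' : V} (p : G.Walk v z) (q : G.Walk v z')
    (hp : p.IsPath) (hq : q.IsPath) (hpn : ¬ p.Nil) (hqn : ¬ q.Nil) (h : p.snd ≠ q.snd) :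
    G.dist z z' = p.length + q.length := by
  have hW : (p.reverse.append q).IsPath := by
    rw [hG.isAcyclic.isPath_iff_isChain]
    cases p with
    | nil => simp at hpn
    | @cons _ a _ h1 p' =>
      cases q with
      | nil => simp at hqn
      | @cons _ b _ h2 q' =>
        rw [Walk.edges_append, List.isChain_append]
        refine ⟨?_, ?_, ?_⟩
        · rw [← hG.isAcyclic.isPath_iff_isChain]; exact hp.reverse
        · rw [← hG.isAcyclic.isPath_iff_isChain]; exact hq
        · intro x hx y hy
          simp only [Walk.edges_reverse, Walk.edges_cons, List.getLast?_reverse, List.head?_cons,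
            Option.mem_def, Option.some.injEq] at hx hy
          subst hx; subst hy
          simp only [Walk.snd_cons] at h
          intro heq
          rw [Sym2.eq_iff] at heq
          rcases heq with ⟨_, h3⟩ | ⟨h3, h4⟩
          · exact h h3
          · exact h (h4.trans h3)
  rw [← path_len hG _ hW, Walk.length_append, Walk.length_reverse]

section root

variable (hG : G.IsTree) (c : V)

/-- the path from the root -/
noncomputable def P (z : V) : G.Walk c z := (hG.existsUnique_path c z).choose

lemma P_isPath (z : V) : (P hG c z).IsPath := (hG.existsUnique_path c z).choose_spec.1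

lemma P_unique {z : V} (p : G.Walk c z) (hp : p.IsPath) : p = P hG c z :=
  (hG.existsUnique_path c z).choose_spec.2 p hp

lemma P_len (z : V) : (P hG c z).length = G.dist c z := path_len hG _ (P_isPath hG c z)

noncomputable abbrev anc (z : V) (k : ℕ) : V := (P hG c z).getVert k

lemma anc_zero (z : V) : anc hG c z 0 = c := by simp [anc]

lemma anc_top (z : V) : anc hG c z (G.dist c z) = z := by
  unfold anc; rw [← P_len hG c z]; exact Walk.getVert_length _

lemma anc_P (z : V) (k : ℕ) : (P hG c z).take k = P hG c (anc hG c z k) :=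
  P_unique hG c _ ((P_isPath hG c z).take k)

lemma anc_depth {z : V} {k : ℕ} (hk : k ≤ G.dist c z) : G.dist c (anc hG c z k) = k := by
  have h1 : ((P hG c z).take k).length = (P hG c (anc hG c z k)).length := by rw [anc_P]
  rw [← P_len hG c (anc hG c z k), ← h1, Walk.take_length, P_len]
  omega

lemma anc_anc {z : V} {k j : ℕ} (hj : j ≤ k) :
    anc hG c (anc hG c z k) j = anc hG c z j := by
  have h1 : ((P hG c z).take k).getVert j = (P hG c (anc hG c z k)).getVert j := by rw [anc_P]
  refine h1.symm.trans ?_
  rw [Walk.take_getVert, min_eq_right hj]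

lemma anc_adj {z : V} {k : ℕ} (hk : k < G.dist c z) :
    G.Adj (anc hG c z k) (anc hG c z (k+1)) :=
  (P hG c z).adj_getVert_succ (by rw [P_len]; exact hk)

lemma anc_dist {z z' : V} {k : ℕ} (hk : k < G.dist c z) (hk' : k < G.dist c z')
    (h : anc hG c z k = anc hG c z' k) (hne : anc hG c z (k+1) ≠ anc hG c z' (k+1)) :
    G.dist z z' = (G.dist c z - k) + (G.dist c z' - k) := by
  have h1 : ((P hG c z).drop k).length = G.dist c z - k := by rw [Walk.drop_length, P_len]
  have h2 : ((P hG c z').drop k).length = G.dist c z' - k := by rw [Walk.drop_length, P_len]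
  have hp1 : ((P hG c z).drop k).IsPath := (P_isPath hG c z).drop k
  have hp2 : ((P hG c z').drop k).IsPath := (P_isPath hG c z').drop k
  have key : ∀ (v v' : V) (hv : v = v') (p : G.Walk v z) (q : G.Walk v' z'), p.IsPath → q.IsPath →
      ¬ p.Nil → ¬ q.Nil → p.getVert 1 ≠ q.getVert 1 → G.dist z z' = p.length + q.length := by
    intro v v' hv p q hp hq hpn hqn h
    subst hv
    exact dist_of_snd_ne hG p q hp hq hpn hqn h
  rw [← h1, ← h2]
  refine key _ _ h _ _ hp1 hp2 ?_ ?_ ?_
  · rw [← Walk.length_eq_zero_iff, h1]; omega
  · rw [← Walk.length_eq_zero_iff, h2]; omega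
  · rw [Walk.drop_getVert, Walk.drop_getVert]; exact hne

/-- the first common level where two vertices split -/
lemma exists_split {z z' : V} (hh : G.dist c z = G.dist c z') (hne : z ≠ z') :
    ∃ k < G.dist c z, anc hG c z k = anc hG c z' k ∧ anc hG c z (k+1) ≠ anc hG c z' (k+1) := by
  by_contra hcon
  push Not at hcon
  have : ∀ k, k ≤ G.dist c z → anc hG c z k = anc hG c z' k := by
    intro k
    induction k with
    | zero => intro _; rw [anc_zero, anc_zero]
    | succ k ih => intro hk; exact hcon k (by omega) (ih (by omega))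
  have h1 := this _ le_rfl
  rw [anc_top, hh, anc_top] at h1
  exact hne h1

end root

end Pool.Agent.H469R3.LP
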